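import Mathlib
import Pool.Agent.H707R3.GrpScheme
import Pool.Agent.H707R3.OpenOrbitDefs
import Pool.Agent.H707R3.Orbit
import Pool.Agent.H707R3.FNUnip

/-!
# Open orbits of maximal commutative unipotent subgroups

Over every algebraically closed field of characteristic zero there are a connected linear algebraic
group `G` and a commutative unipotent subgroup `H` of `G`, maximal among the commutative subgroups
of `G`, such that `H` has no open orbit on any irreducible variety with an effective regular
action of `G`.  The group `G` is the free nilpotent group of class two on three generators and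
`H` is generated by one generator and the centre.
-/

universe u

open CategoryTheory AlgebraicGeometry MonoidalCategory CartesianMonoidalCategory MonObj

namespace Pool.Agent.Results.MP_4a1002_ag.NoOpenOrbit

open Pool.Agent.H707R3

theorem result (K : Type u) [Field K] [IsAlgClosed K] [CharZero K] :
    ∃ (G : Over (Spec (.of K))) (_ : GrpObj G) (H : Subgroup (Pt G)),
      IsLinearAlgebraicGroup G ∧ ConnectedSpace G.left ∧
      IsMaximalCommutative H ∧ (∀ h ∈ H, IsUnipotentPt h) ∧
      ∀ (X : Over (Spec (.of K))) (_ : ModObj G X),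
        IsIrreducibleVariety X → IsEffective G X → ¬ HasOpenOrbit H X := by
  let S : Scheme.{u} := Spec (.of K)
  let e : Pt (GK K) ≃* FN Γ(S, ⊤) := ptEquiv (𝟙_ (Over (Spec (.of K))))
  let H : Subgroup (Pt (GK K)) := (FN.sub Γ(S, ⊤)).comap e.toMonoidHom
  have hH : ∀ g, g ∈ H ↔ e g ∈ FN.sub Γ(S, ⊤) := fun g => Iff.rfl
  have hcomm : ∀ a ∈ H, ∀ b ∈ H, a * b = b * a := by
    intro a ha b hb
    apply e.injective
    rw [map_mul, map_mul]
    exact FN.sub_comm ha hb
  have hnorm : ∀ g, ∀ h ∈ H, g * h * g⁻¹ ∈ H := by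
    intro g h hh
    rw [hH, map_mul, map_mul, map_inv]
    exact FN.sub_normal hh
  refine ⟨GK K, fnGrp _, H, ⟨?_, ?_, ?_⟩, ?_, ⟨hcomm, ?_⟩, fun h _ => isUnipotentPt h, ?_⟩
  · exact inferInstanceAs (IsAffine 𝔸(Six.{u}; Spec (.of K)))
  · exact inferInstanceAs (LocallyOfFiniteType (𝔸(Six.{u}; Spec (.of K)) ↘ Spec (.of K)))
  · exact inferInstanceAs (IsReduced 𝔸(Six.{u}; Spec (.of K)))
  · have : IrreducibleSpace 𝔸(Six.{u}; Spec (.of K)) := inferInstance
    exact inferInstanceAs (ConnectedSpace 𝔸(Six.{u}; Spec (.of K)))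
  · intro H' hH' hle
    refine le_antisymm ?_ hle
    intro g hg
    rw [hH]
    apply FN.mem_sub_of_comm
    have h1 : e.symm FN.e₁ ∈ H := by
      rw [hH, MulEquiv.apply_symm_apply]
      exact FN.e₁_mem
    have h2 := hH' _ (hle h1) _ hg
    have h3 := congrArg e h2
    rwa [map_mul, map_mul, MulEquiv.apply_symm_apply] at h3
  · intro X _ hX heff ho
    obtain ⟨L, h1, h2⟩ := exists_complement hX heff H hcomm hnorm ho
    have : Nontrivial Γ(S, ⊤) := by
      have : Nonempty S := ⟨IsLocalRing.closedPoint K⟩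
      infer_instance
    refine FN.no_complement (L.map e.toMonoidHom) ?_ ?_
    · intro g
      obtain ⟨h, hh, k, hk, hg⟩ := h1 (e.symm g)
      refine ⟨e h, hh, e k, ⟨k, hk, rfl⟩, ?_⟩
      rw [← map_mul, ← hg, MulEquiv.apply_symm_apply]
    · rintro _ ⟨k, hk, rfl⟩ hks
      have := h2 k hk hks
      rw [this]
      exact map_one e

end Pool.Agent.Results.MP_4a1002_ag.NoOpenOrbit
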